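import Pool.Agent.H629.CG.Stm

set_option autoImplicit false

namespace Pool.Agent.H767.CG.LAW

open MeasureTheory ProbabilityTheory Filter Topology Set
open scoped ENNReal NNReal
open Pool.Agent.H629.CG

lemma lip_est (G : ℝ → ℝ) (L : ℝ≥0) (hL : LipschitzWith L G) (B : ℝ) (hB : ∀ x, |G x| ≤ B)
    (s : ℝ) (hs0 : 0 < s) (hs1 : s < 1) (a b : ℝ≥0∞) :
    ENNReal.ofReal |G (a + b).toReal - G a.toReal| ≤ ENNReal.ofReal (2 * B + L + 1) * b ^ s := by
  have hB0 : 0 ≤ B := le_trans (abs_nonneg _) (hB 0)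
  have hL0 : (0 : ℝ) ≤ L := L.2
  have hC : 0 < 2 * B + L + 1 := by positivity
  by_cases ha : a = ∞
  · subst ha
    simp
  by_cases hb : b = ∞
  · subst hb
    rw [ENNReal.top_rpow_of_pos hs0, ENNReal.mul_top (by simpa using hC)]
    exact le_top
  lift a to ℝ≥0 using ha with x
  lift b to ℝ≥0 using hb with y
  have hy : (0 : ℝ) ≤ y := y.2
  have e1 : ((x : ℝ≥0∞) + (y : ℝ≥0∞)).toReal = (x : ℝ) + y := by
    rw [← ENNReal.coe_add]; rfl
  have e2 : ((x : ℝ≥0∞)).toReal = (x : ℝ) := rfl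
  rw [e1, e2]
  have e3 : ((y : ℝ≥0∞)) ^ s = ENNReal.ofReal ((y : ℝ) ^ s) := by
    rw [← ENNReal.ofReal_rpow_of_nonneg hy hs0.le]
    simp
  rw [e3, ← ENNReal.ofReal_mul hC.le]
  apply ENNReal.ofReal_le_ofReal
  have h1 : |G ((x : ℝ) + y) - G x| ≤ L * y := by
    have := hL.dist_le_mul ((x : ℝ) + y) x
    rw [Real.dist_eq, Real.dist_eq] at this
    simpa [abs_of_nonneg hy] using this
  have h2 : |G ((x : ℝ) + y) - G x| ≤ 2 * B := by
    have h3 := abs_sub (G ((x : ℝ) + y)) (G x)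
    linarith [hB ((x : ℝ) + y), hB x]
  rcases le_total (y : ℝ) 1 with h | h
  · have h3 : (y : ℝ) ≤ (y : ℝ) ^ s := by
      rcases eq_or_lt_of_le hy with h0 | h0
      · rw [← h0, Real.zero_rpow hs0.ne']
      · calc (y : ℝ) = (y : ℝ) ^ (1 : ℝ) := (Real.rpow_one _).symm
          _ ≤ (y : ℝ) ^ s := Real.rpow_le_rpow_of_exponent_ge h0 h hs1.le
    calc _ ≤ (L : ℝ) * y := h1
      _ ≤ (2 * B + L + 1) * (y : ℝ) ^ s := by
        apply mul_le_mul _ h3 hy hC.le
        linarith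
  · have h3 : (1 : ℝ) ≤ (y : ℝ) ^ s := Real.one_le_rpow h hs0.le
    calc _ ≤ 2 * B := h2
      _ ≤ (2 * B + L + 1) * 1 := by linarith
      _ ≤ (2 * B + L + 1) * (y : ℝ) ^ s := by gcongr

lemma exp_est {Ω : Type} [MeasurableSpace Ω] (P : Measure Ω) [IsProbabilityMeasure P]
    (G : ℝ → ℝ) (L : ℝ≥0) (hL : LipschitzWith L G) (B : ℝ) (hB : ∀ x, |G x| ≤ B)
    (s : ℝ) (hs0 : 0 < s) (hs1 : s < 1) (U V W : Ω → ℝ≥0∞) (hU : Measurable U) (hV : Measurable V)
    (hUV : ∀ ω, U ω = V ω + W ω) (η : ℝ≥0∞) (hη : η ≠ ∞)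
    (h : ∫⁻ ω, W ω ^ s ∂P ≤ η) :
    |∫ ω, G (U ω).toReal ∂P - ∫ ω, G (V ω).toReal ∂P| ≤ (2 * B + L + 1) * η.toReal := by
  have hB0 : 0 ≤ B := le_trans (abs_nonneg _) (hB 0)
  have hL0 : (0 : ℝ) ≤ L := L.2
  have hC : 0 < 2 * B + L + 1 := by positivity
  have hi : ∀ Y : Ω → ℝ≥0∞, Measurable Y → Integrable (fun ω => G (Y ω).toReal) P := by
    intro Y hY
    apply Integrable.of_bound (C := B)
    · exact (hL.continuous.measurable.comp hY.ennreal_toReal).aestronglyMeasurable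
    · exact Eventually.of_forall fun ω => by simpa using hB _
  rw [← integral_sub (hi U hU) (hi V hV), ← Real.norm_eq_abs]
  refine (norm_integral_le_lintegral_norm _).trans ?_
  have h1 : ∫⁻ ω, ENNReal.ofReal ‖G (U ω).toReal - G (V ω).toReal‖ ∂P ≤
      ENNReal.ofReal (2 * B + L + 1) * η := by
    calc _ ≤ ∫⁻ ω, ENNReal.ofReal (2 * B + L + 1) * W ω ^ s ∂P := by
          apply lintegral_mono
          intro ω
          simp only [Real.norm_eq_abs]
          rw [hUV ω]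
          exact lip_est G L hL B hB s hs0 hs1 _ _
      _ = ENNReal.ofReal (2 * B + L + 1) * ∫⁻ ω, W ω ^ s ∂P :=
          lintegral_const_mul' _ _ ENNReal.ofReal_ne_top
      _ ≤ _ := by gcongr
  calc _ ≤ (ENNReal.ofReal (2 * B + L + 1) * η).toReal :=
        ENNReal.toReal_mono (ENNReal.mul_ne_top ENNReal.ofReal_ne_top hη) h1
    _ = _ := by rw [ENNReal.toReal_mul, ENNReal.toReal_ofReal hC.le]

lemma gap_meas (c : Bool) : Measurable (fun u : ℝ => gap c u 0) := by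
  unfold gap
  cases c
  · simp only [Bool.false_eq_true, if_false, sub_zero]
    exact continuous_abs.measurable
  · simp only [if_true, sub_zero]
    exact (continuous_abs.min (continuous_const.sub continuous_abs)).measurable

lemma gap_zero (c : Bool) : gap c 0 0 = 0 := by
  unfold gap; cases c <;> simp

lemma gap_pos (c : Bool) (u : ℝ) (hu : u ∈ Ioo (0 : ℝ) 1) : 0 < gap c u 0 := by
  unfold gap
  have h1 : |u - 0| = u := by rw [sub_zero, abs_of_pos hu.1]
  cases c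
  · simp only [Bool.false_eq_true, if_false, h1]
    exact hu.1
  · simp only [if_true, h1]
    exact lt_min hu.1 (by linarith [hu.2])

/-- far set -/
def Af (c : Bool) (δ : ℝ) : Set ℝ := {u | u ∈ Ico (0 : ℝ) 1 ∧ δ ≤ gap c u 0}

lemma Af_meas (c : Bool) (δ : ℝ) : MeasurableSet (Af c δ) :=
  measurableSet_Ico.inter (measurableSet_le measurable_const (gap_meas c))

lemma Dl_meas (c : Bool) (δ : ℝ) : MeasurableSet (Dl c δ) :=
  measurableSet_Ico.inter (measurableSet_lt (gap_meas c) measurable_const)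

lemma mass_meas {Ω : Type} [MeasurableSpace Ω] (A : Set ℝ) (w : ℝ → ℝ)
    (hw : Measurable w) (X : ℝ → Ω → ℝ) (hX : Measurable (Function.uncurry X)) :
    Measurable (mass A w X) := by
  unfold mass
  apply Measurable.lintegral_prod_left'
    (f := fun p : ℝ × Ω => ENNReal.ofReal (w p.1 * Real.exp (X p.1 p.2)))
  exact ((hw.comp measurable_fst).mul (Real.measurable_exp.comp hX)).ennreal_ofReal

lemma mass_ind {Ω : Type} (S : Set ℝ) (hS : MeasurableSet S) (hSI : S ⊆ Ico 0 1) (w : ℝ → ℝ)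
    (X : ℝ → Ω → ℝ) (ω : Ω) : mass (Ico 0 1) (S.indicator w) X ω = mass S w X ω := by
  unfold mass
  have : (fun u => ENNReal.ofReal (S.indicator w u * Real.exp (X u ω))) =
      S.indicator (fun u => ENNReal.ofReal (w u * Real.exp (X u ω))) := by
    ext u
    by_cases hu : u ∈ S <;> simp [hu]
  rw [this, setLIntegral_indicator hS, inter_eq_left.2 hSI]

lemma mass_congr {Ω : Type} (S : Set ℝ) (hS : MeasurableSet S) (w v : ℝ → ℝ)
    (h : ∀ u ∈ S, w u = v u) (X : ℝ → Ω → ℝ) (ω : Ω) : mass S w X ω = mass S v X ω := by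
  unfold mass
  apply setLIntegral_congr_fun hS
  intro u hu
  simp only [h u hu]

lemma mass_split {Ω : Type} (c : Bool) (δ : ℝ) (w : ℝ → ℝ) (X : ℝ → Ω → ℝ) (ω : Ω) :
    mass (Ico 0 1) w X ω = mass (Af c δ) w X ω + mass (Dl c δ) w X ω := by
  unfold mass
  have h1 : Ico (0 : ℝ) 1 = Af c δ ∪ Dl c δ := by
    ext u
    simp only [Af, Dl, mem_union, mem_ofPred_eq]
    constructor
    · intro hu
      rcases le_or_gt δ (gap c u 0) with h | h
      · exact Or.inl ⟨hu, h⟩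
      · exact Or.inr ⟨hu, h⟩
    · rintro (h | h) <;> exact h.1
  have h2 : Disjoint (Af c δ) (Dl c δ) := by
    rw [Set.disjoint_left]
    rintro u ⟨_, h⟩ ⟨_, h'⟩
    linarith
  rw [h1, lintegral_union (Dl_meas c δ) h2]

lemma mass_mono {Ω : Type} {S T : Set ℝ} (h : S ⊆ T) (w : ℝ → ℝ) (X : ℝ → Ω → ℝ) (ω : Ω) :
    mass S w X ω ≤ mass T w X ω := lintegral_mono_set h

/-- ring -/
def Rg (c : Bool) (δ' δ : ℝ) : Set ℝ := Af c δ' ∩ Dl c δ

theorem t_LAW : S_M2 → S_M1 → S_FAT → S_LIP → S_LAW := by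
  intro hM2 hM1 hFAT hLIP c ε₀ Ω _ P X Ω' _ P' _ M hε₀ hMn hLim w w₀ hwm hw₀m hw hw₀ hwB heq hB0 hser
  obtain ⟨s, hs0, hs1, hser⟩ := hser
  -- measurability of integrals of the limit
  have hIm : ∀ g : ℝ → ℝ, Measurable g →
      Measurable (fun ω => ∫⁻ u, ENNReal.ofReal (g u) ∂(M ω)) := fun g hg =>
    (Measure.measurable_lintegral hg.ennreal_ofReal).comp hLim.meas
  -- finiteness
  have hfin : ∀ g : ℝ → ℝ, (∃ B : ℝ, ∀ u, g u ≤ B) →
      ∀ᵐ ω ∂P', ∫⁻ u, ENNReal.ofReal (g u) ∂(M ω) < ∞ := by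
    rintro g ⟨B, hB⟩
    filter_upwards [hLim.fin] with ω hω
    calc ∫⁻ u, ENNReal.ofReal (g u) ∂(M ω) ≤ ∫⁻ u, ENNReal.ofReal B ∂(M ω) :=
          lintegral_mono fun u => ENNReal.ofReal_le_ofReal (hB u)
      _ = ENNReal.ofReal B * M ω univ := by rw [lintegral_const]
      _ < ∞ := ENNReal.mul_lt_top ENNReal.ofReal_lt_top hω
  have hindm : ∀ S : Set ℝ, MeasurableSet S → Measurable (S.indicator w₀) := fun S hS =>
    hw₀m.indicator hS
  have hind0 : ∀ S : Set ℝ, ∀ u, 0 ≤ S.indicator w₀ u := fun S u =>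
    indicator_nonneg (fun u _ => hw₀ u) u
  have hindB : ∀ S : Set ℝ, ∀ δ, 0 < δ → S ⊆ Af c δ → ∃ B : ℝ, ∀ u, S.indicator w₀ u ≤ B := by
    intro S δ hδ hS
    obtain ⟨B, hB⟩ := hB0 δ hδ
    refine ⟨max B 0, fun u => ?_⟩
    by_cases hu : u ∈ S
    · rw [indicator_of_mem hu]
      exact le_max_of_le_left (hB u (hS hu).1 (hS hu).2)
    · rw [indicator_of_notMem hu]
      exact le_max_right _ _
  -- the key bound for the limit
  have key : ∀ η : ℝ≥0∞, η ≠ 0 → ∃ δ, 0 < δ ∧ ∃ ε₁, 0 < ε₁ ∧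
      (∀ ε ∈ Ioo 0 ε₁, ∫⁻ ω, (mass (Dl c δ) (w ε) (X ε) ω) ^ s ∂(P ε) ≤ η) ∧
      ∫⁻ ω, (∫⁻ u, ENNReal.ofReal ((Dl c δ ∩ Ioo 0 1).indicator w₀ u) ∂(M ω)) ^ s ∂P' ≤ η := by
    intro η hη
    obtain ⟨δ, hδ, hδ2, ε₁, hε₁, hb⟩ := hser η hη
    refine ⟨δ, hδ, ε₁, hε₁, hb, ?_⟩
    -- approximations
    let dn : ℕ → ℝ := fun n => 1 / ((n : ℝ) + 1)
    have hdn : ∀ n, 0 < dn n := fun n => by positivity
    have hRm : ∀ n, MeasurableSet (Rg c (dn n) δ) := fun n => (Af_meas c _).inter (Dl_meas c δ)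
    have hRI : ∀ n, Rg c (dn n) δ ⊆ Ico 0 1 := fun n u hu => hu.2.1
    have hn : ∀ n, ∫⁻ ω, (∫⁻ u, ENNReal.ofReal ((Rg c (dn n) δ).indicator w₀ u) ∂(M ω)) ^ s ∂P' ≤
        η := by
      intro n
      obtain ⟨ε₂, hε₂, he⟩ := heq (dn n) (hdn n)
      have hbd := hindB (Rg c (dn n) δ) (dn n) (hdn n) inter_subset_left
      have hL := hM2 ε₀ Ω P X Ω' P' M hε₀ hMn hLim ((Rg c (dn n) δ).indicator w₀)
        (hindm _ (hRm n)) (hind0 _) hbd
      have hF := hFAT (min ε₀ (min ε₁ ε₂)) Ω P _ Ω' P' _ (by positivity)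
        (fun ε hε => ⟨hMn.prob ε ⟨hε.1, hε.2.trans_le (min_le_left _ _)⟩,
          (mass_meas _ _ (hindm _ (hRm n)) _
            (hMn.meas ε ⟨hε.1, hε.2.trans_le (min_le_left _ _)⟩)).ennreal_toReal.aemeasurable⟩)
        ((hIm _ (hindm _ (hRm n))).ennreal_toReal.aemeasurable)
        (fun ε ω => ENNReal.toReal_nonneg) (fun ω => ENNReal.toReal_nonneg) hL s η ?_
      · refine le_trans (lintegral_mono_ae ?_) hF
        filter_upwards [hfin _ hbd] with ω hω
        rw [ENNReal.ofReal_toReal hω.ne]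
      · intro ε hε
        have hε1 : ε < ε₁ := hε.2.trans_le ((min_le_right _ _).trans (min_le_left _ _))
        have hε2 : ε < ε₂ := hε.2.trans_le ((min_le_right _ _).trans (min_le_right _ _))
        refine le_trans (lintegral_mono fun ω => ?_) (hb ε ⟨hε.1, hε1⟩)
        dsimp only
        apply ENNReal.rpow_le_rpow _ hs0.le
        refine ENNReal.ofReal_toReal_le.trans ?_
        rw [mass_ind _ (hRm n) (hRI n)]
        rw [mass_congr _ (hRm n) w₀ (w ε) (fun u hu => (he ε ⟨hε.1, hε2⟩ u hu.1.1 hu.1.2).symm)]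
        exact mass_mono inter_subset_right _ _ _
    -- monotone limit
    have hsub : ∀ n m : ℕ, n ≤ m → Rg c (dn n) δ ⊆ Rg c (dn m) δ := by
      intro n m hnm u hu
      refine ⟨⟨hu.1.1, le_trans ?_ hu.1.2⟩, hu.2⟩
      exact one_div_le_one_div_of_le (by positivity) (by gcongr)
    have hlim : ∀ ω, Tendsto (fun n => (∫⁻ u, ENNReal.ofReal ((Rg c (dn n) δ).indicator w₀ u)
        ∂(M ω)) ^ s) atTop
        (𝓝 ((∫⁻ u, ENNReal.ofReal ((Dl c δ ∩ Ioo 0 1).indicator w₀ u) ∂(M ω)) ^ s)) := by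
      intro ω
      refine Tendsto.ennrpow_const s ?_
      apply lintegral_tendsto_of_tendsto_of_monotone
      · exact fun n => (hindm _ (hRm n)).ennreal_ofReal.aemeasurable
      · refine Eventually.of_forall fun u n m hnm => ?_
        apply ENNReal.ofReal_le_ofReal
        exact indicator_le_indicator_of_subset (hsub n m hnm) hw₀ u
      · refine Eventually.of_forall fun u => ?_
        by_cases hu : u ∈ Dl c δ ∩ Ioo 0 1
        · have hg := gap_pos c u hu.2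
          obtain ⟨N, hN⟩ := exists_nat_one_div_lt hg
          apply tendsto_const_nhds.congr'
          filter_upwards [eventually_ge_atTop N] with n hn'
          rw [indicator_of_mem hu, indicator_of_mem]
          refine ⟨⟨hu.1.1, ?_⟩, hu.1⟩
          refine le_trans ?_ hN.le
          exact one_div_le_one_div_of_le (by positivity) (by gcongr)
        · apply tendsto_const_nhds.congr
          intro n
          rw [indicator_of_notMem hu, indicator_of_notMem]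
          intro hu'
          apply hu
          refine ⟨hu'.2, lt_of_le_of_ne hu'.1.1.1 ?_, hu'.1.1.2⟩
          intro h0
          have := hu'.1.2
          rw [← h0, gap_zero] at this
          linarith [hdn n]
    have hfat := lintegral_liminf_le (μ := P') (u := atTop)
      (f := fun n ω => (∫⁻ u, ENNReal.ofReal ((Rg c (dn n) δ).indicator w₀ u) ∂(M ω)) ^ s)
      (fun n => (hIm _ (hindm _ (hRm n))).pow_const s)
    have heq2 : ∀ ω, liminf (fun n => (∫⁻ u, ENNReal.ofReal ((Rg c (dn n) δ).indicator w₀ u)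
        ∂(M ω)) ^ s) atTop =
        (∫⁻ u, ENNReal.ofReal ((Dl c δ ∩ Ioo 0 1).indicator w₀ u) ∂(M ω)) ^ s :=
      fun ω => (hlim ω).liminf_eq
    simp only [heq2] at hfat
    refine hfat.trans ?_
    refine le_trans (liminf_le_liminf (v := fun _ => η) (Eventually.of_forall hn)) ?_
    simp
  -- the decomposition of the limit
  have hW : ∀ δ, 0 < δ → ∀ ω, ∫⁻ u in Ioo 0 1, ENNReal.ofReal (w₀ u) ∂(M ω) =
      ∫⁻ u, ENNReal.ofReal ((Af c δ).indicator w₀ u) ∂(M ω) +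
      ∫⁻ u, ENNReal.ofReal ((Dl c δ ∩ Ioo 0 1).indicator w₀ u) ∂(M ω) := by
    intro δ hδ ω
    rw [← lintegral_add_left (hindm _ (Af_meas c δ)).ennreal_ofReal,
      ← lintegral_indicator measurableSet_Ioo]
    congr 1
    ext u
    by_cases h1 : u ∈ Ioo (0 : ℝ) 1
    · rw [indicator_of_mem h1]
      rcases le_or_gt δ (gap c u 0) with h | h
      · rw [indicator_of_mem (show u ∈ Af c δ from ⟨⟨h1.1.le, h1.2⟩, h⟩), indicator_of_notMem]
        · simp
        · rintro ⟨⟨_, h'⟩, _⟩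
          linarith
      · rw [indicator_of_mem (show u ∈ Dl c δ ∩ Ioo 0 1 from ⟨⟨⟨h1.1.le, h1.2⟩, h⟩, h1⟩),
          indicator_of_notMem]
        · simp
        · rintro ⟨_, h'⟩
          linarith
    · rw [indicator_of_notMem h1, indicator_of_notMem, indicator_of_notMem]
      · simp
      · rintro ⟨_, h'⟩
        exact h1 h'
      · rintro ⟨h', h''⟩
        apply h1
        refine ⟨lt_of_le_of_ne h'.1 ?_, h'.2⟩
        intro h0
        rw [← h0, gap_zero] at h''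
        linarith
  have hWm : Measurable (fun ω => ∫⁻ u in Ioo 0 1, ENNReal.ofReal (w₀ u) ∂(M ω)) := by
    have : (fun ω => ∫⁻ u in Ioo 0 1, ENNReal.ofReal (w₀ u) ∂(M ω)) = fun ω =>
        ∫⁻ u, ENNReal.ofReal ((Ioo 0 1).indicator w₀ u) ∂(M ω) := by
      ext ω
      rw [← lintegral_indicator measurableSet_Ioo]
      congr 1
      ext u
      by_cases h1 : u ∈ Ioo (0 : ℝ) 1 <;> simp [h1]
    rw [this]
    exact hIm _ (hindm _ measurableSet_Ioo)
  constructor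
  · refine hLIP ε₀ Ω P _ Ω' P' _ hε₀ (fun ε hε => ⟨hMn.prob ε hε,
      (mass_meas _ _ (hwm ε) _ (hMn.meas ε hε)).ennreal_toReal.aemeasurable⟩)
      hWm.ennreal_toReal.aemeasurable ?_
    rintro G ⟨L, hL⟩ ⟨B, hB⟩
    have hB0' : 0 ≤ B := le_trans (abs_nonneg _) (hB 0)
    have hL0 : (0 : ℝ) ≤ L := L.2
    have hC : 0 < 2 * B + L + 1 := by positivity
    rw [Metric.tendsto_nhds]
    intro e he
    obtain ⟨δ, hδ, ε₁, hε₁, hb1, hb2⟩ := key (ENNReal.ofReal (e / (4 * (2 * B + L + 1))))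
      (by simp; positivity)
    obtain ⟨ε₂, hε₂, heq'⟩ := heq δ hδ
    have hbd := hindB (Af c δ) δ hδ subset_rfl
    have hLaw := hM2 ε₀ Ω P X Ω' P' M hε₀ hMn hLim ((Af c δ).indicator w₀)
      (hindm _ (Af_meas c δ)) (hind0 _) hbd G hL.continuous ⟨B, hB⟩
    rw [Metric.tendsto_nhds] at hLaw
    have h4 : (ENNReal.ofReal (e / (4 * (2 * B + L + 1)))).toReal = e / (4 * (2 * B + L + 1)) :=
      ENNReal.toReal_ofReal (by positivity)
    have h5 : (2 * B + L + 1) * (e / (4 * (2 * B + L + 1))) = e / 4 := by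
      field_simp
    have hl2 := exp_est P' G L hL B hB s hs0 hs1 _ _ _ hWm (hIm _ (hindm _ (Af_meas c δ)))
      (hW δ hδ) _ ENNReal.ofReal_ne_top hb2
    rw [h4, h5] at hl2
    filter_upwards [hLaw (e / 4) (by positivity),
      Ioo_mem_nhdsGT (show (0 : ℝ) < min ε₀ (min ε₁ ε₂) by positivity)] with ε h1 hε
    have hε0 : ε ∈ Ioo 0 ε₀ := ⟨hε.1, hε.2.trans_le (min_le_left _ _)⟩
    have hε1 : ε < ε₁ := hε.2.trans_le ((min_le_right _ _).trans (min_le_left _ _))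
    have hε2 : ε < ε₂ := hε.2.trans_le ((min_le_right _ _).trans (min_le_right _ _))
    have := hMn.prob ε hε0
    have hsp : ∀ ω, mass (Ico 0 1) (w ε) (X ε) ω =
        mass (Ico 0 1) ((Af c δ).indicator w₀) (X ε) ω + mass (Dl c δ) (w ε) (X ε) ω := by
      intro ω
      rw [mass_split c δ (w ε), mass_ind _ (Af_meas c δ) (fun u hu => hu.1),
        mass_congr _ (Af_meas c δ) (w ε) w₀ (fun u hu => heq' ε ⟨hε.1, hε2⟩ u hu.1 hu.2)]
    have hl1 := exp_est (P ε) G L hL B hB s hs0 hs1 _ _ _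
      (mass_meas (Ico 0 1) (w ε) (hwm ε) (X ε) (hMn.meas ε hε0))
      (mass_meas (Ico 0 1) _ (hindm _ (Af_meas c δ)) (X ε) (hMn.meas ε hε0))
      hsp _ ENNReal.ofReal_ne_top (hb1 ε ⟨hε.1, hε1⟩)
    rw [h4, h5] at hl1
    rw [Real.dist_eq] at h1 ⊢
    rw [abs_lt] at h1 ⊢
    rw [abs_le] at hl1 hl2
    constructor <;> linarith [hl1.1, hl1.2, hl2.1, hl2.2, h1.1, h1.2]
  · obtain ⟨δ, hδ, ε₁, hε₁, hb1, hb2⟩ := key 1 one_ne_zero
    have hbd := hindB (Af c δ) δ hδ subset_rfl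
    have h2m : Measurable (fun ω => (∫⁻ u, ENNReal.ofReal ((Dl c δ ∩ Ioo 0 1).indicator w₀ u)
        ∂(M ω)) ^ s) :=
      (hIm _ (hindm _ ((Dl_meas c δ).inter measurableSet_Ioo))).pow_const s
    have h3 := ae_lt_top h2m (lt_of_le_of_lt hb2 ENNReal.one_lt_top).ne
    filter_upwards [h3, hfin _ hbd] with ω hω1 hω2
    rw [hW δ hδ ω]
    refine ENNReal.add_lt_top.2 ⟨hω2, ?_⟩
    by_contra hcon
    rw [not_lt, top_le_iff] at hcon
    rw [hcon, ENNReal.top_rpow_of_pos hs0] at hω1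
    exact lt_irrefl _ hω1

end Pool.Agent.H767.CG.LAW
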